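import Mathlib
import Pool.Agent.Helper47.Spread.Main

/-!
# Zero loci of generic sections: charts at one point
-/

universe u v w

open CategoryTheory AlgebraicGeometry Limits

namespace Pool.Agent.Helper47.One

open Pool.Agent.Helper10 Pool.Agent.Helper10.SmProjVar Pool.Agent.Helper47.Chow
open Pool.Agent.Helper47.Desc Pool.Agent.Helper47.Spread Pool.Agent.Helper47.Spread.C5

noncomputable section

variable {F K : Type u} [Field F] [Field K] [Algebra F K] {Q : SmProjVar F} {R : ℕ} {I : Type}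
  [Fintype I]

theorem const_comp_one {Y : SmProjVar K} (π : Y.toOver.left ⟶ Q.toOver.left)
    (w : π ≫ Q.toOver.hom = Y.toOver.hom ≫ specMap F K) (V : Q.toOver.left.Opens) :
    (pb π V).comp (const Q.toOver.hom V) =
      (const Y.toOver.hom (π ⁻¹ᵁ V)).comp (algebraMap F K) := by
  ext x
  simp only [RingHom.comp_apply]
  rw [pb_eq_ap, ap_const, const_congr w, const_specMap]

theorem chart_zero {S : Sections Q R I} {a : I → K} {Y : SmProjVar K}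
    {π : Y.toOver.left ⟶ Q.toOver.left} (hY : IsZeroLocus S a Y π) (i : S.ι)
    (V : Q.toOver.left.Opens) (hV : V ≤ S.U i) (q : Fin R) :
    ∑ l, const Y.toOver.hom (π ⁻¹ᵁ V) (a l) * pb π V (res hV (S.f i q l)) = 0 := by
  have hle : π ⁻¹ᵁ V ≤ π ⁻¹ᵁ S.U i := fun x hx => hV hx
  have h1 := congrArg (res hle) (hY.zero i q)
  rw [eqn, map_sum, map_zero] at h1
  rw [← h1]
  refine Finset.sum_congr rfl fun l _ => ?_
  rw [map_mul, res_const, pb_eq_ap, pb_eq_ap, res_ap, ap_res]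

theorem chart_lift {S : Sections Q R I} {a : I → K} {Y : SmProjVar K}
    {π : Y.toOver.left ⟶ Q.toOver.left} (hY : IsZeroLocus S a Y π) (i : S.ι)
    (V : Q.toOver.left.Opens) (hV : V ≤ S.U i) (hVa : IsAffineOpen V)
    (B : Type u) [CommRing B] (α' : Γ(Q.toOver.left, V) →+* B) (κ' : K →+* B)
    (h : α'.comp (const Q.toOver.hom V) = κ'.comp (algebraMap F K))
    (h' : ∀ q, ∑ l, κ' (a l) * α' (res hV (S.f i q l)) = 0) :
    ∃ γ : Γ(Y.toOver.left, π ⁻¹ᵁ V) →+* B,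
      γ.comp (pb π V) = α' ∧ γ.comp (const Y.toOver.hom (π ⁻¹ᵁ V)) = κ' := by
  set ν : Spec (CommRingCat.of B) ⟶ Q.toOver.left :=
    Spec.map (CommRingCat.ofHom α') ≫ hVa.fromSpec with hν
  set s : Spec (CommRingCat.of B) ⟶ Spec (CommRingCat.of K) :=
    Spec.map (CommRingCat.ofHom κ') with hs
  have hνs : ν ≫ Q.toOver.hom = s ≫ specMap F K := by
    rw [hν, Category.assoc, fromSpec_comp, ← Spec.map_comp, hs, specMap, ← Spec.map_comp,
      ← CommRingCat.ofHom_comp, ← CommRingCat.ofHom_comp, h]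
  have hνV : (⊤ : (Spec (CommRingCat.of B)).Opens) ≤ ν ⁻¹ᵁ V := point_le hVa α'
  have hres : ∀ q l, res hV (S.f i q l) = res hV (S.f i q l) := fun _ _ => rfl
  obtain ⟨g, hg, hg'⟩ := exists_point_lift hY ν s hνs i (fun x hx => hV (hνV hx)) (by
    intro q
    have h1 := congrArg (Scheme.ΓSpecIso (CommRingCat.of B)).inv.hom (h' q)
    rw [map_sum, map_zero] at h1
    rw [← h1]
    refine Finset.sum_congr rfl fun l _ => ?_
    rw [map_mul]
    congr 1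
    · exact const_spec κ' (a l)
    · have h2 := ap_point hVa α' (res hV (S.f i q l))
      rw [ap_res] at h2
      exact h2)
  have hgU : (⊤ : (Spec (CommRingCat.of B)).Opens) ≤ g ⁻¹ᵁ (π ⁻¹ᵁ V) := by
    intro x hx
    have h3 : x ∈ ν ⁻¹ᵁ V := hνV hx
    rw [← hg] at h3
    exact h3
  have hcancel : ∀ b : B, (Scheme.ΓSpecIso (CommRingCat.of B)).hom.hom
      ((Scheme.ΓSpecIso (CommRingCat.of B)).inv.hom b) = b := by
    intro b
    have := congrArg (fun f => f.hom b) (Scheme.ΓSpecIso (CommRingCat.of B)).inv_hom_id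
    exact this
  refine ⟨(Scheme.ΓSpecIso (CommRingCat.of B)).hom.hom.comp (ap g _ ⊤ hgU), ?_, ?_⟩
  · ext x
    simp only [RingHom.comp_apply]
    rw [pb_eq_ap, ap_ap, ap_congr hg]
    have h2 := ap_point hVa α' x
    exact (congrArg _ h2).trans (hcancel _)
  · ext x
    simp only [RingHom.comp_apply]
    rw [ap_const, const_congr hg']
    have h2 := const_spec κ' x
    exact (congrArg _ h2).trans (hcancel _)

theorem chart_unique {S : Sections Q R I} {a : I → K} {Y : SmProjVar K}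
    {π : Y.toOver.left ⟶ Q.toOver.left} (hY : IsZeroLocus S a Y π)
    (V : Q.toOver.left.Opens) (hVa : IsAffineOpen V)
    (hU : IsAffineOpen (π ⁻¹ᵁ V)) (B : Type u) [CommRing B]
    (γ γ' : Γ(Y.toOver.left, π ⁻¹ᵁ V) →+* B)
    (h : γ.comp (pb π V) = γ'.comp (pb π V))
    (h' : γ.comp (const Y.toOver.hom (π ⁻¹ᵁ V)) =
      γ'.comp (const Y.toOver.hom (π ⁻¹ᵁ V))) : γ = γ' := by
  have hθ : ∀ δ : Γ(Y.toOver.left, π ⁻¹ᵁ V) →+* B,
      (Spec.map (CommRingCat.ofHom δ) ≫ hU.fromSpec) ≫ π =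
        Spec.map (CommRingCat.ofHom (δ.comp (pb π V))) ≫ hVa.fromSpec := by
    intro δ
    rw [Category.assoc, ← IsAffineOpen.SpecMap_appLE_fromSpec π hVa hU le_rfl,
      ← Category.assoc, ← Spec.map_comp, ← Scheme.Hom.app_eq_appLE]
    rfl
  have hh : ∀ δ : Γ(Y.toOver.left, π ⁻¹ᵁ V) →+* B,
      (Spec.map (CommRingCat.ofHom δ) ≫ hU.fromSpec) ≫ Y.toOver.hom =
        Spec.map (CommRingCat.ofHom (δ.comp (const Y.toOver.hom (π ⁻¹ᵁ V)))) := by
    intro δ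
    rw [Category.assoc, fromSpec_comp, ← Spec.map_comp]
    rfl
  have e3 : Spec.map (CommRingCat.ofHom γ) ≫ hU.fromSpec =
      Spec.map (CommRingCat.ofHom γ') ≫ hU.fromSpec := by
    apply hY.unique
    · rw [hθ, hθ, h]
    · rw [hh, hh, h']
  have e4 : Spec.map (CommRingCat.ofHom γ) = Spec.map (CommRingCat.ofHom γ') :=
    (cancel_mono hU.fromSpec).1 e3
  have e5 := Spec.map_injective e4
  exact congrArg CommRingCat.Hom.hom e5

/-- The sections generate the fibre of the vector bundle at `x`. -/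
def GenAt (S : Sections Q R I) (x : Q.toOver.left) : Prop :=
  ∃ (i : S.ι) (J : Fin R → I), x ∈ Q.toOver.left.basicOpen
    (Matrix.det (Matrix.of fun c c' => S.f i c (J c')))

theorem exists_chart {S : Sections Q R I} {a : I → K} {Y : SmProjVar K}
    {π : Y.toOver.left ⟶ Q.toOver.left} [IsAffineHom π] (hY : IsZeroLocus S a Y π)
    (x : Q.toOver.left) (hx : GenAt S x) :
    ∃ (V : Q.toOver.left.Opens) (_ : IsAffineOpen V) (_ : x ∈ V)
      (_ : IsAffineOpen (π ⁻¹ᵁ V)) (n : ℕ) (e : Fin n → I)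
      (L : MvPolynomial I F →+* MvPolynomial (Fin n) Γ(Q.toOver.left, V))
      (ρ : MvPolynomial (Fin n) Γ(Q.toOver.left, V) →+* Γ(Y.toOver.left, π ⁻¹ᵁ V)),
      n + R = Fintype.card I ∧ ρ.comp MvPolynomial.C = pb π V ∧
      (∀ i, ρ (MvPolynomial.X i) = const Y.toOver.hom (π ⁻¹ᵁ V) (a (e i))) ∧
      L.comp MvPolynomial.C = MvPolynomial.C.comp (const Q.toOver.hom V) ∧
      IsPushout (CommRingCat.ofHom (MvPolynomial.aeval a : MvPolynomial I F →ₐ[F] K).toRingHom)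
        (CommRingCat.ofHom L) (CommRingCat.ofHom (const Y.toOver.hom (π ⁻¹ᵁ V)))
        (CommRingCat.ofHom ρ) := by
  obtain ⟨i, J, hJ⟩ := hx
  let N := Q.toOver.left
  let det : Γ(N, S.U i) := Matrix.det (Matrix.of fun c c' => S.f i c (J c'))
  let V : N.Opens := N.basicOpen det
  have hVb : V ≤ S.U i := N.basicOpen_le det
  have hV : IsAffineOpen V := (S.affine i).basicOpen det
  have hU : IsAffineOpen (π ⁻¹ᵁ V) := hV.preimage π
  have hnt : Nontrivial Γ(N, V) := by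
    have : Nonempty V := ⟨⟨x, hJ⟩⟩
    exact Scheme.component_nontrivial N V
  have hunit : IsUnit (Matrix.det (Matrix.of fun c c' : Fin R =>
      (fun c l => res hVb (S.f i c l)) c (J c'))) := by
    have h1 : IsUnit (res hVb det) := RingedSpace.isUnit_res_basicOpen _ det
    have h2 : res hVb det = Matrix.det (Matrix.of fun c c' : Fin R =>
      (fun c l => res hVb (S.f i c l)) c (J c')) := by
      rw [RingHom.map_det]
      rfl
    rwa [← h2]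
  obtain ⟨n, e, L, ρ, h1, h2, h3, h4, h5⟩ := exists_isPushout
    (const Q.toOver.hom V) (pb π V) (const Y.toOver.hom (π ⁻¹ᵁ V))
    (const_comp_one π hY.w V) a (fun c l => res hVb (S.f i c l))
    (fun c => chart_zero hY i V hVb c)
    (fun B _ α' κ' h h' => chart_lift hY i V hVb hV B α' κ' h h')
    (fun B _ γ γ' h h' => chart_unique hY V hV hU B γ γ' h h') J hunit
  refine ⟨V, hV, hJ, hU, n, e, L, ρ, ?_, h2, h3, h4, h5⟩
  rw [← h1, Fintype.card_fin]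

section General

variable {Z Z' : Scheme.{u}}

lemma const_eq_appLE (s : Z ⟶ Spec (CommRingCat.of K)) (W : Z.Opens) (e : W ≤ s ⁻¹ᵁ ⊤) :
    const s W = ((Scheme.ΓSpecIso (CommRingCat.of K)).inv ≫ s.appLE ⊤ W e).hom := rfl

lemma pb_eq_appLE (f : Z ⟶ Z') (W : Z'.Opens) :
    pb f W = (f.appLE W (f ⁻¹ᵁ W) le_rfl).hom := by
  unfold pb
  rw [Scheme.Hom.app_eq_appLE]

lemma appLE_comp_eq_id (s s' : Z ⟶ Z) (h' : s' ≫ s = 𝟙 Z) (U : Z.Opens) (hs : U ≤ s ⁻¹ᵁ U)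
    (hs' : U ≤ s' ⁻¹ᵁ U) : s.appLE U U hs ≫ s'.appLE U U hs' = 𝟙 _ := by
  rw [Scheme.Hom.appLE_comp_appLE]
  have : ∀ (t : Z ⟶ Z) (ht : t = 𝟙 Z) (e : U ≤ t ⁻¹ᵁ U), t.appLE U U e = 𝟙 _ := by
    rintro t rfl e
    rw [Scheme.Hom.appLE, Scheme.Hom.id_app]
    exact (Category.id_comp _).trans (Z.presheaf.map_id _)
  exact this _ h' _

lemma exists_ringEquiv (s s' : Z ⟶ Z) (h : s ≫ s' = 𝟙 Z) (h' : s' ≫ s = 𝟙 Z) (U : Z.Opens)
    (hs : U ≤ s ⁻¹ᵁ U) (hs' : U ≤ s' ⁻¹ᵁ U) :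
    ∃ τ : Γ(Z, U) ≃+* Γ(Z, U), (τ : Γ(Z, U) →+* Γ(Z, U)) = (s.appLE U U hs).hom := by
  refine ⟨RingEquiv.ofRingHom (s.appLE U U hs).hom (s'.appLE U U hs').hom ?_ ?_, rfl⟩
  · have := appLE_comp_eq_id s' s h U hs' hs
    rw [← CommRingCat.hom_comp, this]
    rfl
  · have := appLE_comp_eq_id s s' h' U hs hs'
    rw [← CommRingCat.hom_comp, this]
    rfl

lemma appLE_pb (s : Z ⟶ Z) (θ : Z ⟶ Z') (h : s ≫ θ = θ) (V : Z'.Opens)
    (hs : θ ⁻¹ᵁ V ≤ s ⁻¹ᵁ (θ ⁻¹ᵁ V)) (x : Γ(Z', V)) :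
    (s.appLE (θ ⁻¹ᵁ V) (θ ⁻¹ᵁ V) hs).hom (pb θ V x) = pb θ V x := by
  rw [pb_eq_appLE, ← CommRingCat.comp_apply, Scheme.Hom.appLE_comp_appLE]
  have : ∀ (t : Z ⟶ Z') (ht : t = θ) (e : θ ⁻¹ᵁ V ≤ t ⁻¹ᵁ V),
      t.appLE V (θ ⁻¹ᵁ V) e = θ.appLE V (θ ⁻¹ᵁ V) le_rfl := by
    rintro t rfl e
    rfl
  rw [this _ h]

lemma appLE_const (s : Z ⟶ Z) (p : Z ⟶ Spec (CommRingCat.of K)) (f : K →+* K)
    (h : s ≫ p = p ≫ Spec.map (CommRingCat.ofHom f)) (U : Z.Opens) (hs : U ≤ s ⁻¹ᵁ U) (x : K) :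
    (s.appLE U U hs).hom (const p U x) = const p U (f x) := by
  have e0 : U ≤ p ⁻¹ᵁ ⊤ := le_top
  rw [const_eq_appLE p U e0, ← CommRingCat.comp_apply, Category.assoc,
    Scheme.Hom.appLE_comp_appLE]
  have h1 : ∀ (t : Z ⟶ Spec (CommRingCat.of K))
      (ht : t = p ≫ Spec.map (CommRingCat.ofHom f)) (e : U ≤ t ⁻¹ᵁ ⊤),
      (Scheme.ΓSpecIso (CommRingCat.of K)).inv ≫ t.appLE ⊤ U e =
        CommRingCat.ofHom f ≫ (Scheme.ΓSpecIso (CommRingCat.of K)).inv ≫ p.appLE ⊤ U e0 := by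
    rintro t rfl e
    rw [← Category.assoc, Scheme.ΓSpecIso_inv_naturality, Category.assoc]
    congr 1
  rw [h1 _ h]
  rfl

end General

theorem comap_sch {Y : SmProjVar K} (a : I → K) (π : Y.toOver.left ⟶ Q.toOver.left)
    (g : SemiAut Y) (hg : g ∈ galGroup (F := F) a π) (V : Q.toOver.left.Opens)
    (hU : IsAffineOpen (π ⁻¹ᵁ V)) :
    ∃ τ : Γ(Y.toOver.left, π ⁻¹ᵁ V) ≃+* Γ(Y.toOver.left, π ⁻¹ᵁ V),
      (∀ x, τ (pb π V x) = pb π V x) ∧
      (∀ x, τ (const Y.toOver.hom _ x) = const Y.toOver.hom _ (fieldMap g x)) ∧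
      ∀ (y : Y.toOver.left) (hy : y ∈ π ⁻¹ᵁ V),
        ∃ hy' : g.sch y ∈ π ⁻¹ᵁ V,
          (hU.primeIdealOf ⟨y, hy⟩).asIdeal.comap (τ : _ →+* _) =
            (hU.primeIdealOf ⟨g.sch y, hy'⟩).asIdeal := by
  have key : ∀ h ∈ galGroup (F := F) a π, π ⁻¹ᵁ V ≤ h.sch ⁻¹ᵁ (π ⁻¹ᵁ V) := by
    intro h hh
    rw [← Scheme.Hom.comp_preimage, hh.1]
  have hg' : g⁻¹ ∈ galGroup (F := F) a π := inv_mem hg
  have e1 : g.sch ≫ SemiAut.sch g⁻¹ = 𝟙 _ := SemiAut.sch_sch_inv g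
  have e2 : SemiAut.sch g⁻¹ ≫ g.sch = 𝟙 _ := SemiAut.sch_inv_sch g
  have e3 : g.sch ≫ Y.toOver.hom =
      Y.toOver.hom ≫ Spec.map (CommRingCat.ofHom (fieldMap g)) := by
    rw [specMap_fieldMap]
    exact g.sch_hom
  obtain ⟨τ, hτ⟩ := exists_ringEquiv g.sch (SemiAut.sch g⁻¹) e1 e2
    (π ⁻¹ᵁ V) (key g hg) (key _ hg')
  have hτ' : ∀ x, τ x = (g.sch.appLE _ _ (key g hg)).hom x := fun x =>
    congrArg (fun f => f x) hτ
  refine ⟨τ, fun x => ?_, fun x => ?_, fun y hy => ?_⟩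
  · rw [hτ']
    exact appLE_pb _ _ hg.1 V (key g hg) x
  · rw [hτ']
    exact appLE_const _ _ _ e3 _ (key g hg) x
  · refine ⟨key g hg hy, ?_⟩
    rw [hτ]
    exact congrArg PrimeSpectrum.asIdeal (IsAffineOpen.comap_primeIdealOf_appLE
      (π ⁻¹ᵁ V) hU (π ⁻¹ᵁ V) hU (key g hg) hy)

theorem finite_orbits {S : Sections Q R I} {a : I → K}
    [Normal (IntermediateField.adjoin F (Set.range a)) K] {Y : SmProjVar K}
    {π : Y.toOver.left ⟶ Q.toOver.left} [IsAffineHom π] (hY : IsZeroLocus S a Y π)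
    (y : Y.toOver.left) :
    (Set.range fun g : galGroup (F := F) a π => g.1.sch y).Finite := by
  obtain ⟨i, hi⟩ := S.cover (π y)
  have hVa : IsAffineOpen (S.U i) := S.affine i
  have hU : IsAffineOpen (π ⁻¹ᵁ S.U i) := hVa.preimage _
  have hy : y ∈ π ⁻¹ᵁ S.U i := hi
  have hN : IsNoetherianRing Γ(Y.toOver.left, π ⁻¹ᵁ S.U i) := by
    let _ := (const Y.toOver.hom (π ⁻¹ᵁ S.U i)).toAlgebra
    have : Algebra.FiniteType K Γ(Y.toOver.left, π ⁻¹ᵁ S.U i) := finiteType_const Y hU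
    exact Algebra.FiniteType.isNoetherianRing K _
  have hgen := closure_eq_top (const Q.toOver.hom (S.U i))
    (pb π (S.U i)) (const Y.toOver.hom (π ⁻¹ᵁ S.U i))
    (const_comp_one π hY.w (S.U i)) a (fun c l => res le_rfl (S.f i c l))
    (chart_zero hY i (S.U i) le_rfl)
    (chart_lift hY i (S.U i) le_rfl hVa)
    (chart_unique hY (S.U i) hVa hU)
  have hτ := fun g : galGroup (F := F) a π => comap_sch a π g.1 g.2 (S.U i) hU
  choose τ hα hκ hp using hτ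
  have key := finite_comap_orbit (pb π (S.U i))
    (const Y.toOver.hom (π ⁻¹ᵁ S.U i)) hgen
    (fun g : galGroup (F := F) a π => fieldEquiv g.1) τ hα hκ (finite_fieldMap a π)
    (hU.primeIdealOf ⟨y, hy⟩).asIdeal
  classical
  let f : Y.toOver.left → Ideal Γ(Y.toOver.left, π ⁻¹ᵁ S.U i) := fun x =>
    if hx : x ∈ π ⁻¹ᵁ S.U i then (hU.primeIdealOf ⟨x, hx⟩).asIdeal else ⊥
  refine Set.Finite.of_finite_image (f := f) (key.subset ?_) ?_
  · rintro _ ⟨_, ⟨g, rfl⟩, rfl⟩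
    obtain ⟨hy', h⟩ := hp g y hy
    refine ⟨g, ?_⟩
    change _ = f (g.1.sch y)
    simp only [f]
    rw [dif_pos hy']
    exact h
  · rintro _ ⟨g, rfl⟩ _ ⟨g', rfl⟩ h
    obtain ⟨hy1, -⟩ := hp g y hy
    obtain ⟨hy2, -⟩ := hp g' y hy
    change g.1.sch y = g'.1.sch y
    change f (g.1.sch y) = f (g'.1.sch y) at h
    simp only [f] at h
    rw [dif_pos hy1, dif_pos hy2] at h
    exact eq_of_prime_eq hU hy1 hy2 h

end

end Pool.Agent.Helper47.One
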