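import Mathlib
import Pool.Agent.Helper47.One.Chart1

/-!
# Zero loci of generic sections: the fibres of `Y ⟶ Q`
-/

universe u v w

open CategoryTheory AlgebraicGeometry Limits

namespace Pool.Agent.Helper47.One

open Pool.Agent.Helper10 Pool.Agent.Helper10.SmProjVar Pool.Agent.Helper47.Chow
open Pool.Agent.Helper47.Desc Pool.Agent.Helper47.Spread

noncomputable section

variable {F K : Type u} [Field F] [Field K] [Algebra F K] {Q : SmProjVar F} {R : ℕ} {I : Type}
  [Fintype I]

theorem local_package {S : Sections Q R I} {a : I → K}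
    (ha : AlgebraicIndependent F a) [Normal (IntermediateField.adjoin F (Set.range a)) K]
    {Y : SmProjVar K} {π : Y.toOver.left ⟶ Q.toOver.left} [IsAffineHom π]
    (hY : IsZeroLocus S a Y π) (x : Q.toOver.left) (hx : GenAt S x) :
    ∃ lev : Y.toOver.left → ℕ, ∀ y : Y.toOver.left, π y = x →
        (lev y = 0 → Y.pointDim y + R = Q.pointDim x ∧
          ∀ y' : Y.toOver.left, π y' = x →
            (Y.pointDim y' = Y.pointDim y →
              ∃ g ∈ galGroup (F := F) a π, g.sch y = y') ∧ (y' ⤳ y → y' = y)) ∧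
        (lev y ≠ 0 → ∃ D : QCycles Y, IsDivisor Y D ∧ 0 < D.coeff y ∧
          (∀ g ∈ galGroup (F := F) a π, 0 ≤ D.coeff (g.sch y)) ∧
          ∀ y' : Y.toOver.left, D.coeff y' ≠ 0 →
            Y.pointDim y' = Y.pointDim y ∧ x ⤳ π y' ∧
              (π y' = x → (∃ g ∈ galGroup (F := F) a π, g.sch y = y') ∨ lev y' < lev y)) := by
  obtain ⟨V, hV, hxV, hU, n, e, L, ρ, hn, hρC, hρX, hLC, hp⟩ := exists_chart hY x hx
  let U : Y.toOver.left.Opens := π ⁻¹ᵁ V
  have hφ : (const Q.toOver.hom V).FiniteType := finiteType_const Q hV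
  have hκ : (const Y.toOver.hom U).FiniteType := finiteType_const Y hU
  obtain ⟨gd, inc, tr, dm⟩ := alg_package (const Q.toOver.hom V) hφ a ha (pb π V)
    (const Y.toOver.hom U) e L ρ hρC hρX hLC hp
  obtain ⟨lv, hlv⟩ := exists_level (const Q.toOver.hom V) hφ n
  -- the prime ideals
  let P : ∀ y : Y.toOver.left, y ∈ U → Ideal Γ(Y.toOver.left, U) := fun y hy =>
    (hU.primeIdealOf ⟨y, hy⟩).asIdeal
  have hQ : ∀ y hy, (P y hy).IsPrime := fun y hy => (hU.primeIdealOf ⟨y, hy⟩).isPrime
  have hQρ : ∀ y hy, ((P y hy).comap ρ).IsPrime := fun y hy => by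
    have := hQ y hy
    exact Ideal.comap_isPrime ρ (P y hy)
  have hQC : ∀ y hy, ((P y hy).comap ρ).comap MvPolynomial.C =
      (hV.primeIdealOf ⟨π y, hy⟩).asIdeal := by
    intro y hy
    rw [Ideal.comap_comap, hρC]
    exact comap_pb π hV hU hy
  have hft : ((MvPolynomial.C (σ := Fin n)).comp (const Q.toOver.hom V)).FiniteType := by
    refine RingHom.FiniteType.comp ?_ hφ
    rw [← MvPolynomial.algebraMap_eq, RingHom.finiteType_algebraMap]
    infer_instance
  have hdim : ∀ y hy, Y.pointDim y + Fintype.card I =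
      dimOf ((MvPolynomial.C (σ := Fin n)).comp (const Q.toOver.hom V)) ((P y hy).comap ρ) := by
    intro y hy
    rw [pointDim_eq_dimOf Y hU hy]
    exact dm (P y hy) (hQ y hy)
  -- points with the same prime ideal of the polynomial ring are conjugate
  have hconj : ∀ y y' (hy : y ∈ U) (hy' : y' ∈ U), (P y hy).comap ρ = (P y' hy').comap ρ →
      ∃ g ∈ galGroup (F := F) a π, g.sch y = y' := by
    intro y y' hy hy' h
    obtain ⟨σ, hσ1, hσ2, hσ3⟩ := tr (P y hy) (P y' hy') (hQ _ _) (hQ _ _) h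
    obtain ⟨g, hg, hgσ⟩ := exists_semiAut hY σ hσ1 hσ2
    refine ⟨g, hg, ?_⟩
    obtain ⟨τ, hτ1, hτ2, hτ3⟩ := comap_sch a π g hg V hU
    obtain ⟨hgy, hτ4⟩ := hτ3 y hy
    have h5 := hσ3 (τ : _ →+* _) hτ1 (fun z => by
      have := hτ2 z
      rw [hgσ] at this
      exact this)
    exact eq_of_prime_eq hU hgy hy' (hτ4.symm.trans h5)
  classical
  refine ⟨fun y => if h : y ∈ U then lv ((P y h).comap ρ) else 0, fun y hyx => ?_⟩
  have hy : y ∈ U := by
    change π y ∈ V
    rw [hyx]
    exact hxV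
  have hQx : ∀ y' (hy' : y' ∈ U), π y' = x → ((P y' hy').comap ρ).comap MvPolynomial.C =
      (hV.primeIdealOf ⟨x, hxV⟩).asIdeal := by
    intro y' hy' h
    rw [hQC]
    subst h
    rfl
  have hxU : ∀ y', π y' = x → y' ∈ U := by
    intro y' h
    change π y' ∈ V
    rw [h]
    exact hxV
  simp only [dif_pos hy]
  obtain ⟨h0, h1⟩ := hlv ((P y hy).comap ρ) (hQρ y hy)
  refine ⟨fun hl => ?_, fun hl => ?_⟩
  · -- generic points of the fibre
    have h2 := h0 hl
    rw [hQx y hy hyx] at h2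
    have hprime : (hV.primeIdealOf ⟨x, hxV⟩).asIdeal.IsPrime := (hV.primeIdealOf ⟨x, hxV⟩).isPrime
    refine ⟨?_, fun y' hy'x => ?_⟩
    · have h3 := hdim y hy
      rw [h2, dimOf_map_mvC _ hφ n _ hprime, ← pointDim_eq_dimOf Q hV hxV] at h3
      omega
    · have hy' := hxU y' hy'x
      have h4 : (P y hy).comap ρ ≤ (P y' hy').comap ρ := by
        rw [h2, Ideal.map_le_iff_le_comap, hQx y' hy' hy'x]
      refine ⟨fun hd => ?_, fun hs => ?_⟩
      · refine hconj y y' hy hy' ?_
        by_contra hne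
        have h5 := dimOf_lt _ hft _ _ (hQρ y hy) (hQρ y' hy') (lt_of_le_of_ne h4 hne)
        have h6 : Y.pointDim y' + Fintype.card I < Y.pointDim y + Fintype.card I := by
          rw [hdim y' hy', hdim y hy]
          exact h5
        omega
      · have h6 : P y' hy' ≤ P y hy := (specializes_iff hU hy' hy).mp hs
        have h7 : (P y' hy').comap ρ = (P y hy).comap ρ := le_antisymm (Ideal.comap_mono h6) h4
        exact eq_of_prime_eq hU hy' hy (inc _ _ (hQ _ _) (hQ _ _) h6 h7)
  · -- the other points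
    obtain ⟨𝔭', hp1, hp2, hp3, hp4, b, hb1, hb2, hb3⟩ := h1 hl
    obtain ⟨𝔔', hq1, hq2, hq3⟩ := gd 𝔭' (P y hy) hp1 (hQ y hy) hp2
    obtain ⟨y₀, hy₀, hq4⟩ := exists_pt hU 𝔔' hq1
    have hq5 : P y₀ hy₀ = 𝔔' := hq4
    have hθy₀ : π y₀ = x := by
      refine eq_of_prime_eq hV hy₀ hxV ?_
      rw [← hQx y hy hyx, ← hp3, ← hq3, ← hq5]
      exact (hQC y₀ hy₀).symm
    have hd0 : Y.pointDim y₀ = Y.pointDim y + 1 := by
      have h2 := hdim y₀ hy₀
      have h3 := hdim y hy
      rw [hq5, hq3, hp4] at h2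
      omega
    have hsp : y₀ ⤳ y := (specializes_iff hU hy₀ hy).mpr (by rw [hq4]; exact hq2)
    have hne : y ≠ y₀ := by
      intro h
      rw [h] at hd0
      omega
    have hbtw : ∀ t : Y.toOver.left, y₀ ⤳ t → t ⤳ y → t = y₀ ∨ t = y := by
      intro t ht1 ht2
      by_contra! hcon
      have h2 := pointDim_lt Y ht1 hcon.1
      have h3 := pointDim_lt Y ht2 (Ne.symm hcon.2)
      omega
    have hbas : y₀ ∈ Y.toOver.left.basicOpen (ρ b) := by
      by_contra h
      rw [← mem_primeIdealOf_iff hU hy₀, hq4, ← Ideal.mem_comap, hq3] at h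
      exact hb2 h
    have hbasy : y ∉ Y.toOver.left.basicOpen (ρ b) := by
      rw [← mem_primeIdealOf_iff hU hy]
      exact hb1
    obtain ⟨D, hD1, hD2, hD3, hD4⟩ := exists_divisor Y U hU y₀ (ρ b) hbas
    refine ⟨D, hD1, hD4 y hy hsp hne hbtw hbasy, fun g hg => ?_, fun y' hy'D => ?_⟩
    · refine (hD3 _ ?_).1
      change π (g.sch y) ∈ V
      have h2 : π (g.sch y) = π y := by
        rw [← Scheme.Hom.comp_apply, hg.1]
      rw [h2, hyx]
      exact hxV
    · obtain ⟨h2, h3, h4⟩ := hD2 y' hy'D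
      have h5 := pointDim_add_one Y h2 h3 h4
      refine ⟨?_, ?_, fun hy'x => ?_⟩
      · omega
      · rw [← hθy₀]
        exact h2.map π.continuous
      · have hy' := hxU y' hy'x
        have h6 : y' ∉ Y.toOver.left.basicOpen (ρ b) := (hD3 y' hy').2 hy'D
        rw [← mem_primeIdealOf_iff hU hy'] at h6
        have h7 := hb3 ((P y' hy').comap ρ) (hQρ y' hy') (by
          rw [← hq3, ← hq5]
          exact Ideal.comap_mono ((specializes_iff hU hy₀ hy').mp h2)) h6 (by
          rw [← hdim y' hy', ← hq3, ← hq5, ← hdim y₀ hy₀]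
          omega)
        rcases h7 with h7 | h7
        · exact Or.inl (hconj y y' hy hy' h7.symm)
        · right
          rw [dif_pos hy']
          exact h7

variable {L : Type v} [Field L] [CharZero L] {W : WeilCohomology.{u, v, w} K L}

/-- The local step. -/
theorem local_step {S : Sections Q R I} {a : I → K}
    (ha : AlgebraicIndependent F a) [Normal (IntermediateField.adjoin F (Set.range a)) K]
    {N Y : SmProjVar K} (pN : N.toOver.left ⟶ Q.toOver.left)
    (hN : IsPullback pN N.toOver.hom Q.toOver.hom (specMap F K)) (j : Y.toOver ⟶ N.toOver)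
    [IsClosedImmersion j.left] (hY : IsZeroLocus S a Y (j.left ≫ pN)) (hdim : N.dim = Y.dim + R)
    {C : ChowTheory W} (hS : HasSupport C) (x : Q.toOver.left) (hx : GenAt S x) :
    ∃ lev : Y.toOver.left → ℕ, ∀ y : Y.toOver.left, (j.left ≫ pN) y = x →
      ∃ D : QCycles Y, (∃ i, Y.pointDim y + i = Y.dim ∧ ∃ z ∈ CHi N i, cls Y D = C.ops.pull j z) ∧
        0 < D.coeff y ∧
        (∀ g ∈ galGroup (F := F) a (j.left ≫ pN), 0 ≤ D.coeff (g.sch y)) ∧
        ∀ y' : Y.toOver.left, D.coeff y' ≠ 0 →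
          Y.pointDim y' = Y.pointDim y ∧ x ⤳ (j.left ≫ pN) y' ∧
            ((j.left ≫ pN) y' = x → (∃ g ∈ galGroup (F := F) a (j.left ≫ pN), g.sch y = y') ∨
              lev y' < lev y) := by
  have hA : IsAffineHom (j.left ≫ pN) := isAffineHom_comp pN hN j
  obtain ⟨lev, hlev⟩ := local_package ha hY x hx
  refine ⟨lev, fun y hyx => ?_⟩
  obtain ⟨h0, h1⟩ := hlev y hyx
  let π := j.left ≫ pN
  let G := galGroup (F := F) a π
  by_cases hl : lev y = 0
  · obtain ⟨h2, h3⟩ := h0 hl
    obtain ⟨t, ht1, ht2, ht3⟩ := exists_generization pN hN (j.left y)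
    have hst : ∀ y' : Y.toOver.left, pN (j.left y') = π y' :=
      fun y' => (Scheme.Hom.comp_apply j.left pN y').symm
    replace ht2 : pN t = x := ht2.trans ((hst y).trans hyx)
    replace ht3 : N.pointDim t = Q.pointDim x :=
      ht3.trans (congrArg Q.pointDim ((hst y).trans hyx))
    obtain ⟨D, hD1, hD2, hD3⟩ := hS.pull_support j t
    have hstar : ∀ y' : Y.toOver.left, t ⤳ j.left y' → x ⤳ π y' := by
      intro y' h
      have h5 := h.map pN.continuous
      rw [ht2, hst y'] at h5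
      exact h5
    have hmin : ∀ g ∈ G, ∀ x' : Y.toOver.left, x' ⤳ g.sch y →
        t ⤳ j.left x' → x' = g.sch y := by
      intro g hg x' hx'1 hx'2
      have h5 : π (g.sch y) = x := by
        rw [← Scheme.Hom.comp_apply, hg.1]
        exact hyx
      have h6 : π x' = x := by
        have h7 := hx'1.map π.continuous
        rw [h5] at h7
        exact (h7.antisymm (hstar x' hx'2)).eq
      have h8 : (g⁻¹ : SemiAut Y).sch x' ⤳ y := by
        have h9 := hx'1.map (g⁻¹ : SemiAut Y).sch.continuous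
        rwa [show (g⁻¹ : SemiAut Y).sch (g.sch y) = y from SemiAut.pt_inv_pt g y] at h9
      have h10 : π ((g⁻¹ : SemiAut Y).sch x') = x := by
        rw [← Scheme.Hom.comp_apply, (G.inv_mem hg).1]
        exact h6
      have h12 := (h3 _ h10).2 h8
      rw [← h12]
      exact (SemiAut.pt_pt_inv g x').symm
    have hpd : ∀ g : SemiAut Y, Y.pointDim (g.sch y) = Y.pointDim y := fun g => pointDim_pt g y
    have hpos : ∀ g ∈ G, t ⤳ j.left (g.sch y) → 0 < D.coeff (g.sch y) := by
      intro g hg ht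
      refine hD3 _ ht (hmin g hg) ?_
      rw [hpd g]
      omega
    have hgen : Q.pointDim x ≤ N.dim := by
      have h5 : N.pointDim t ≤ N.pointDim N.genericPt := by
        by_cases h6 : t = N.genericPt
        · rw [h6]
        · exact (pointDim_lt_of_ne_genericPt N t h6).le
      rw [pointDim_genericPt W N] at h5
      omega
    refine ⟨D, ⟨N.dim - Q.pointDim x, by omega, ptCls N t, ?_, hD1⟩, ?_, fun g hg => ?_,
      fun y' hy' => ?_⟩
    · exact ptCls_mem_CHi' t (by omega)
    · have h5 := hpos 1 G.one_mem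
      exact h5 ht1
    · by_cases h5 : D.coeff (g.sch y) = 0
      · exact h5.ge
      · exact (hpos g hg (hD2 _ h5).1).le
    · obtain ⟨h5, h6⟩ := hD2 y' hy'
      have h7 : Y.pointDim y' = Y.pointDim y := by omega
      refine ⟨h7, hstar y' h5, fun h8 => Or.inl ?_⟩
      exact (h3 y' h8).1 h7
  · obtain ⟨D, hD1, hD2, hD3, hD4⟩ := h1 hl
    have hle : Y.pointDim y ≤ Y.dim := by
      have h5 : Y.pointDim y ≤ Y.pointDim Y.genericPt := by
        by_cases h6 : y = Y.genericPt
        · rw [h6]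
        · exact (pointDim_lt_of_ne_genericPt Y y h6).le
      rwa [pointDim_genericPt W Y] at h5
    refine ⟨D, ⟨Y.dim - Y.pointDim y, by omega, 0, (CHiL N _).zero_mem, ?_⟩, hD2, hD3, hD4⟩
    have h5 : cls Y D = 0 :=
      (Submodule.Quotient.mk_eq_zero _).mpr (Submodule.subset_span hD1)
    rw [h5]
    exact (C.pull j).map_zero.symm

end

end Pool.Agent.Helper47.One
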